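import Pool.Agent.J4H63.KS.Stm
import Pool.Agent.J4H87.SP.Acp

/-!
# Project KS, pieces (CLK) and (SBT): the number of clauses, and substitution of trees into trees
-/

set_option autoImplicit false

namespace Pool.Agent.J4H74.KS

open Finset Pool.Agent.J4H64.SS Pool.Agent.J4H95.SP Pool.Agent.J4H87.SP Pool.Agent.J4H63.KS

theorem t_CLK : S_CLK := by
  classical
  intro k n hn
  have h1 : Fintype.card (ClK k n) =
      (univ.filter (fun c : Finset (Fin n × Bool) => c.card ≤ k)).card := by
    rw [Fintype.card_subtype]
  have h2 : (univ.filter (fun c : Finset (Fin n × Bool) => c.card ≤ k)) ⊆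
      (range (k + 1)).biUnion (fun i => powersetCard i univ) := by
    intro c hc
    rw [mem_filter] at hc
    rw [mem_biUnion]
    exact ⟨c.card, by rw [mem_range]; omega, by rw [mem_powersetCard]; exact ⟨subset_univ _, rfl⟩⟩
  have hN : Fintype.card (Fin n × Bool) = 2 * n := by
    simp [Fintype.card_prod, mul_comm]
  rw [h1]
  refine (card_le_card h2).trans (card_biUnion_le.trans ?_)
  simp only [card_powersetCard, card_univ, hN]
  refine (sum_le_sum (fun i _ => Nat.choose_le_pow (2 * n) i)).trans ?_
  exact (Nat.geomSum_lt (by omega) (fun i hi => mem_range.1 hi)).le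

theorem t_SBT : S_SBT := by
  intro I J w d d' f g hf hg
  induction hf with
  | inp d j => exact mono (hg j) (by omega)
  | neg _ ih =>
    have h := AC.neg ih
    exact mono h (by omega)
  | ex f hk _ ih =>
    have h := AC.ex _ hk ih
    exact mono h (by omega)

end Pool.Agent.J4H74.KS
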