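import Pool.Agent.J4H74.KS.Cl

/-!
# Project KS, piece (RK): from sparse `k`-CNFs to 3-CNFs with linearly many variables
-/

set_option autoImplicit false

namespace Pool.Agent.J4H74.KS

open Finset Pool.Agent.J4H64.SS Pool.Agent.J4H95.SP Pool.Agent.J4H87.SP Pool.Agent.J4H63.KS

section Rank

variable {k n w : ℕ}

/-- rank of the clause `c` among the clauses of `x` containing `l` -/
noncomputable def rkK (x : ClK k n → Bool) (l : Fin n × Bool) (c : ClK k n) : ℕ :=
  (univ.filter (fun c' : ClK k n => x c' = true ∧ l ∈ c'.1 ∧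
    Fintype.equivFin (ClK k n) c' < Fintype.equivFin (ClK k n) c)).card

theorem rkK_lt {B : ℕ} (x : ClK k n → Bool) (hx : SpK B x) (l : Fin n × Bool) (c : ClK k n)
    (hc : x c = true) (hl : l ∈ c.1) : rkK x l c < B := by
  classical
  refine lt_of_lt_of_le ?_ (hx l)
  refine card_lt_card ⟨?_, ?_⟩
  · intro c' hc'
    rw [mem_filter] at hc' ⊢
    exact ⟨mem_univ _, hc'.2.1, hc'.2.2.1⟩
  · intro h
    have h1 := h (mem_filter.2 ⟨mem_univ c, hc, hl⟩)
    rw [mem_filter] at h1
    exact lt_irrefl _ h1.2.2.2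

theorem rkK_mono (x : ClK k n → Bool) (l : Fin n × Bool) (c c' : ClK k n)
    (hc : x c = true) (hl : l ∈ c.1)
    (h : Fintype.equivFin (ClK k n) c < Fintype.equivFin (ClK k n) c') :
    rkK x l c < rkK x l c' := by
  classical
  refine card_lt_card ⟨?_, ?_⟩
  · intro d hd
    rw [mem_filter] at hd ⊢
    exact ⟨mem_univ _, hd.2.1, hd.2.2.1, hd.2.2.2.trans h⟩
  · intro h'
    have h1 := h' (mem_filter.2 ⟨mem_univ c, hc, hl, h⟩)
    rw [mem_filter] at h1
    exact lt_irrefl _ h1.2.2.2

theorem rkK_inj (x : ClK k n → Bool) (l : Fin n × Bool) (c c' : ClK k n)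
    (hc : x c = true) (hl : l ∈ c.1) (hc' : x c' = true) (hl' : l ∈ c'.1)
    (h : rkK x l c = rkK x l c') : c = c' := by
  rcases lt_trichotomy (Fintype.equivFin (ClK k n) c) (Fintype.equivFin (ClK k n) c') with h1 | h1 | h1
  · exact absurd h (rkK_mono x l c c' hc hl h1).ne
  · exact (Fintype.equivFin (ClK k n)).injective h1
  · exact absurd h (rkK_mono x l c' c hc' hl' h1).ne'

theorem ac_rkK (hw : 2 ≤ w) (j : ℕ) (hj : Fintype.card (Fin j → ClK k n) ≤ w) (hj' : j ≤ w)
    (l : Fin n × Bool) (c : ClK k n) : AC w 20 (fun x : ClK k n → Bool => j ≤ rkK x l c) := by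
  classical
  have e : (fun x : ClK k n → Bool => j ≤ rkK x l c) = fun x => ∃ f : Fin j → ClK k n,
      Function.Injective f ∧ ∀ i, x (f i) = true ∧ (l ∈ (f i).1 ∧
        Fintype.equivFin (ClK k n) (f i) < Fintype.equivFin (ClK k n) c) := by
    funext x
    apply propext
    rw [← exS j (fun c' : ClK k n => x c' = true ∧ (l ∈ c'.1 ∧
        Fintype.equivFin (ClK k n) c' < Fintype.equivFin (ClK k n) c))]
    constructor
    · intro h
      obtain ⟨S, hS, hSc⟩ := exists_subset_card_eq h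
      refine ⟨S, hSc, fun c' hc' => ?_⟩
      have := hS hc'
      rw [mem_filter] at this
      exact this.2
    · rintro ⟨S, hS, h⟩
      rw [← hS]
      unfold rkK
      apply card_le_card
      intro c' hc'
      rw [mem_filter]
      exact ⟨mem_univ _, h c' hc'⟩
  rw [e]
  refine mono (ac_ex hj fun f => ac_cand (d := 12) (mono (ac_all (by simpa using hj') fun i =>
    ac_and hw (AC.inp 0 (f i)) (ac_const _)) (by norm_num))) (by norm_num)

theorem ac_rkKeq {B : ℕ} (hw : 2 ≤ w) (hj : ∀ j, j ≤ B → Fintype.card (Fin j → ClK k n) ≤ w)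
    (hj' : B ≤ w) (l : Fin n × Bool) (c : ClK k n) (s : Fin B) :
    AC w 30 (fun x : ClK k n → Bool => rkK x l c = s.1) := by
  have hs := s.2
  have e : (fun x : ClK k n → Bool => rkK x l c = s.1) =
      fun x => s.1 ≤ rkK x l c ∧ ¬ (s.1 + 1 ≤ rkK x l c) := by
    funext x
    apply propext
    omega
  rw [e]
  exact mono (ac_and hw (ac_rkK hw s.1 (hj _ hs.le) (hs.le.trans hj') l c)
    (AC.neg (ac_rkK hw (s.1 + 1) (hj _ hs) (le_trans hs hj') l c))) (by norm_num)

end Rank

section Chain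

variable {k n B : ℕ}

theorem ex_el (c : ClK k n) (h : c.1.Nonempty) :
    ∃ f : ℕ → Fin n × Bool, (∀ p, f p ∈ c.1) ∧ ∀ l ∈ c.1, ∃ p, p < k ∧ f p = l := by
  obtain ⟨l₀, hl₀⟩ := h
  have e := c.1.equivFin
  refine ⟨fun p => if h : p < c.1.card then (e.symm ⟨p, h⟩).1 else l₀, fun p => ?_, fun l hl => ?_⟩
  · dsimp only
    split_ifs with h
    · exact (e.symm ⟨p, h⟩).2
    · exact hl₀
  · have h2 := (e ⟨l, hl⟩).2
    refine ⟨(e ⟨l, hl⟩).1, h2.trans_le c.2, ?_⟩
    simp

/-- the literals of a nonempty clause -/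
noncomputable def el (c : ClK k n) (h : c.1.Nonempty) : ℕ → Fin n × Bool :=
  Classical.choose (ex_el c h)

theorem el_mem (c : ClK k n) (h : c.1.Nonempty) (p : ℕ) : el c h p ∈ c.1 :=
  (Classical.choose_spec (ex_el c h)).1 p

theorem el_all (c : ClK k n) (h : c.1.Nonempty) (l : Fin n × Bool) (hl : l ∈ c.1) :
    ∃ p, p < k ∧ el c h p = l := (Classical.choose_spec (ex_el c h)).2 l hl

/-- the variables -/
abbrev Vr (k n B : ℕ) : Type := Fin n ⊕ ((Fin n × Bool) × Fin B × Fin (k + 1))

/-- numbering -/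
noncomputable def ev (k n B : ℕ) : Vr k n B ≃ Fin (Fintype.card (Vr k n B)) :=
  Fintype.equivFin _

/-- the literal of a chain variable -/
noncomputable def zz (l : Fin n × Bool) (s : Fin B) (p : Fin (k + 1)) (b : Bool) :
    Fin (Fintype.card (Vr k n B)) × Bool := (ev k n B (Sum.inr (l, s, p)), b)

/-- the old literals -/
noncomputable def yy (k B : ℕ) (l : Fin n × Bool) : Fin (Fintype.card (Vr k n B)) × Bool :=
  (ev k n B (Sum.inl l.1), l.2)

/-- the clauses of the chain of `c` -/
def Cn (c : ClK k n) (h : c.1.Nonempty) (s : Fin B)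
    (q : Finset (Fin (Fintype.card (Vr k n B)) × Bool)) : Prop :=
  q = {zz (el c h 0) s 0 true} ∨ q = {zz (el c h 0) s (Fin.last k) false} ∨
  ∃ p : Fin k, q = {zz (el c h 0) s p.castSucc false, yy k B (el c h p),
    zz (el c h 0) s p.succ true}

open Classical in
/-- the 3-CNF -/
noncomputable def GG (k n B : ℕ) (x : ClK k n → Bool) (q : Cl (Fintype.card (Vr k n B))) : Bool :=
  decide ((q.1 = ∅ ∧ x ⟨∅, by simp⟩ = true) ∨
    ∃ t : ClK k n × Fin B × (Fin n × Bool), (∃ h : t.1.1.Nonempty, el t.1 h 0 = t.2.2 ∧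
      Cn t.1 h t.2.1 q.1) ∧ (x t.1 = true ∧ rkK x t.2.2 t.1 = t.2.1.1))

theorem GG_true (x : ClK k n → Bool) (q : Cl (Fintype.card (Vr k n B))) :
    GG k n B x q = true ↔ ((q.1 = ∅ ∧ x ⟨∅, by simp⟩ = true) ∨
    ∃ t : ClK k n × Fin B × (Fin n × Bool), (∃ h : t.1.1.Nonempty, el t.1 h 0 = t.2.2 ∧
      Cn t.1 h t.2.1 q.1) ∧ (x t.1 = true ∧ rkK x t.2.2 t.1 = t.2.1.1)) := by
  simp only [GG, decide_eq_true_eq]

theorem card_three {α : Type} [DecidableEq α] (a b c : α) : ({a, b, c} : Finset α).card ≤ 3 :=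
  card_le_three

theorem sat_of (x : ClK k n → Bool) (hx : SpK B x) (h : Sat (GG k n B x)) : SatK x := by
  classical
  obtain ⟨A, hA⟩ := h
  refine ⟨fun v => A (ev k n B (Sum.inl v)), fun c hc => ?_⟩
  by_cases hne : c.1.Nonempty
  · by_contra hcon
    push Not at hcon
    have hs : rkK x (el c hne 0) c < B := rkK_lt x hx _ c hc (el_mem c hne 0)
    set s : Fin B := ⟨rkK x (el c hne 0) c, hs⟩ with hsd
    have key : ∀ q : Finset (Fin (Fintype.card (Vr k n B)) × Bool), ∀ h3 : q.card ≤ 3,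
        Cn c hne s q → ∃ l ∈ q, A l.1 = l.2 := by
      intro q h3 hq
      refine hA ⟨q, h3⟩ ((GG_true _ _).2 (Or.inr ⟨(c, s, el c hne 0), ⟨hne, rfl, hq⟩, hc, rfl⟩))
    have hind : ∀ p : ℕ, ∀ hp : p < k + 1, A (zz (el c hne 0) s ⟨p, hp⟩ true).1 = true := by
      intro p
      induction p with
      | zero =>
        intro hp
        obtain ⟨l, hl, hl2⟩ := key _ (by rw [card_singleton]; omega) (Or.inl rfl)
        rw [mem_singleton] at hl
        rw [hl] at hl2
        exact hl2
      | succ p ih =>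
        intro hp
        have hp' : p < k := by omega
        obtain ⟨l, hl, hl2⟩ := key _ (card_three _ _ _) (Or.inr (Or.inr ⟨⟨p, hp'⟩, rfl⟩))
        rw [mem_insert, mem_insert, mem_singleton] at hl
        rcases hl with hl | hl | hl
        · rw [hl] at hl2
          have h4 := ih (by omega)
          have h5 : A (zz (el c hne 0) s ⟨p, by omega⟩ true).1 = false := hl2
          rw [h4] at h5
          exact absurd h5 (by decide)
        · rw [hl] at hl2
          exact absurd hl2 (hcon _ (el_mem c hne p))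
        · rw [hl] at hl2
          exact hl2
    obtain ⟨l, hl, hl2⟩ := key _ (by rw [card_singleton]; omega) (Or.inr (Or.inl rfl))
    rw [mem_singleton] at hl
    rw [hl] at hl2
    have h4 := hind k (by omega)
    have h5 : A (zz (el c hne 0) s ⟨k, by omega⟩ true).1 = false := hl2
    rw [h4] at h5
    exact absurd h5 (by decide)
  · exfalso
    rw [not_nonempty_iff_eq_empty] at hne
    have hc' : c = ⟨∅, by simp⟩ := Subtype.ext hne
    obtain ⟨l, hl, _⟩ := hA ⟨∅, by simp⟩ ((GG_true _ _).2 (Or.inl ⟨rfl, by rw [← hc']; exact hc⟩))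
    exact absurd hl (by simp)

open Classical in
/-- the values of the chain variables -/
noncomputable def zval (x : ClK k n → Bool) (a : Fin n → Bool) (l : Fin n × Bool) (s : Fin B)
    (p : ℕ) : Bool :=
  decide (∀ (c : ClK k n) (h : c.1.Nonempty), x c = true → el c h 0 = l → rkK x l c = s.1 →
    ∀ q, q < p → a (el c h q).1 ≠ (el c h q).2)

theorem of_sat (x : ClK k n → Bool) (h : SatK x) : Sat (GG k n B x) := by
  classical
  obtain ⟨a, ha⟩ := h
  set A : Fin (Fintype.card (Vr k n B)) → Bool := fun i =>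
    Sum.elim a (fun t => zval x a t.1 t.2.1 t.2.2.1) ((ev k n B).symm i) with hAd
  have hAz : ∀ (l : Fin n × Bool) (s : Fin B) (p : Fin (k + 1)) (b : Bool),
      A (zz l s p b).1 = zval x a l s p.1 := by
    intro l s p b
    simp only [hAd, zz, Equiv.symm_apply_apply, Sum.elim_inr]
  have hAy : ∀ l : Fin n × Bool, A (yy k B l).1 = a l.1 := by
    intro l
    simp only [hAd, yy, Equiv.symm_apply_apply, Sum.elim_inl]
  refine ⟨A, fun q hq => ?_⟩
  rcases (GG_true _ _).1 hq with ⟨-, h0⟩ | ⟨⟨c, s, l⟩, ⟨hne, hl, hC⟩, hc, hr⟩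
  · obtain ⟨l, hl, -⟩ := ha _ h0
    exact absurd hl (by simp)
  · simp only at hne hl hC hc hr
    have huniq : ∀ (c' : ClK k n) (h' : c'.1.Nonempty), x c' = true → el c' h' 0 = l →
        rkK x l c' = s.1 → c' = c := by
      intro c' h' hc' hl' hr'
      refine rkK_inj x l c' c hc' (hl' ▸ el_mem c' h' 0) hc (hl ▸ el_mem c hne 0) ?_
      rw [hr, hr']
    rw [Cn, hl] at hC
    rcases hC with hC | hC | ⟨p, hC⟩
    · refine ⟨zz l s 0 true, by rw [hC]; exact mem_singleton_self _, ?_⟩
      rw [hAz]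
      show zval x a l s 0 = true
      rw [zval, decide_eq_true_eq]
      intro _ _ _ _ _ q hq
      omega
    · refine ⟨zz l s (Fin.last k) false, by rw [hC]; exact mem_singleton_self _, ?_⟩
      rw [hAz]
      show zval x a l s k = false
      rw [zval, decide_eq_false_iff_not]
      intro hcon
      obtain ⟨l', hl', hal'⟩ := ha c hc
      obtain ⟨q, hqk, hq⟩ := el_all c hne l' hl'
      exact hcon c hne hc hl hr q hqk (by rw [hq]; exact hal')
    · by_cases h1 : zval x a l s p.1 = true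
      · by_cases h2 : a (el c hne p).1 = (el c hne p).2
        · refine ⟨yy k B (el c hne p), by rw [hC]; simp, ?_⟩
          rw [hAy]
          exact h2
        · refine ⟨zz l s p.succ true, by rw [hC]; simp, ?_⟩
          rw [hAz]
          show zval x a l s (p.1 + 1) = true
          rw [zval, decide_eq_true_eq] at h1 ⊢
          intro c' h' hc' hl' hr' q hq
          have hcc := huniq c' h' hc' hl' hr'
          subst hcc
          rcases Nat.lt_succ_iff_lt_or_eq.1 hq with h3 | h3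
          · exact h1 c' h' hc' hl' hr' q h3
          · rw [h3]
            exact h2
      · refine ⟨zz l s p.castSucc false, by rw [hC]; simp, ?_⟩
        rw [hAz]
        show zval x a l s p.1 = false
        simpa using h1

end Chain

theorem t_RK : S_RK := by
  classical
  intro k B
  refine ⟨1 + 2 * (B * (k + 1)), (k + 1) * B + (k + 1) + B + 1, 60, fun n hn => ?_⟩
  have hcard : Fintype.card (Vr k n B) = n + (n * 2) * (B * (k + 1)) := by
    simp [Fintype.card_sum, Fintype.card_prod]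
  refine ⟨Fintype.card (Vr k n B), by rw [hcard]; omega, by rw [hcard]; nlinarith,
    GG k n B, fun q => ?_, fun x hx => ⟨sat_of x hx, of_sat x⟩⟩
  set N := 2 * n with hN
  have hN2 : 2 ≤ N := by omega
  set K := (k + 1) * B + (k + 1) + B + 1 with hK
  have hpow : ∀ a, a ≤ K → N ^ a ≤ N ^ K := fun a ha => Nat.pow_le_pow_right (by omega) ha
  have hw2 : 2 ≤ N ^ K := hN2.trans (by simpa using hpow 1 (by omega))
  have hlt : ∀ a, a ≤ N ^ a := fun a => (Nat.lt_pow_self (by omega)).le
  have hBw : B ≤ N ^ K := (hlt B).trans (hpow B (by omega))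
  have hCl : Fintype.card (ClK k n) ≤ N ^ (k + 1) := t_CLK k n hn
  have hfun : ∀ j, j ≤ B → Fintype.card (Fin j → ClK k n) ≤ N ^ K := by
    intro j hj
    rw [Fintype.card_fun, Fintype.card_fin]
    calc Fintype.card (ClK k n) ^ j ≤ (N ^ (k + 1)) ^ j := Nat.pow_le_pow_left hCl j
      _ = N ^ ((k + 1) * j) := by rw [pow_mul]
      _ ≤ N ^ K := hpow _ (by
        have := Nat.mul_le_mul_left (k + 1) hj
        omega)
  have hprod : Fintype.card (ClK k n × Fin B × (Fin n × Bool)) ≤ N ^ K := by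
    rw [Fintype.card_prod, Fintype.card_prod, Fintype.card_fin]
    have h1 : Fintype.card (Fin n × Bool) = N := by simp [Fintype.card_prod, mul_comm, hN]
    rw [h1]
    calc Fintype.card (ClK k n) * (B * N) ≤ N ^ (k + 1) * (N ^ B * N) :=
          Nat.mul_le_mul hCl (Nat.mul_le_mul_right _ (hlt B))
      _ = N ^ (k + 1 + B + 1) := by rw [pow_succ N (k + 1 + B), pow_add N (k + 1) B]; ring
      _ ≤ N ^ K := hpow _ (by omega)
  have e : (fun x : ClK k n → Bool => GG k n B x q = true) = fun x =>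
      ((q.1 = ∅ ∧ x ⟨∅, by simp⟩ = true) ∨
      ∃ t : ClK k n × Fin B × (Fin n × Bool), (∃ h : t.1.1.Nonempty, el t.1 h 0 = t.2.2 ∧
        Cn t.1 h t.2.1 q.1) ∧ (x t.1 = true ∧ rkK x t.2.2 t.1 = t.2.1.1)) := by
    funext x
    exact propext (GG_true x q)
  rw [e]
  refine mono (ac_or hw2 (ac_cand (d := 0) (AC.inp 2 _)) (ac_ex hprod fun t =>
    ac_cand (d := 40) (mono (ac_and hw2 (AC.inp 0 t.1)
      (ac_rkKeq hw2 hfun hBw t.2.2 t.1 t.2.1)) (by norm_num)))) (by norm_num)

end Pool.Agent.J4H74.KS
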